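import Pool.Agent.Helper28.CZT.Sets

/-!
Base three: sets that are invariant under the Collatz map above a threshold and are regular in base
three are finite or cofinite.
-/

namespace Pool.Agent.Helper41.CZ3

open Pool.Agent.Helper28.CZ (close_powers)
open Pool.Agent.Helper28.CZT

/-- the number with given ternary digits, the most significant digit first -/
def val3 (w : List (Fin 3)) : ℕ := w.foldl (fun a b => 3 * a + (b : ℕ)) 0

/-- the language of the ternary words whose value belongs to `S` -/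
def lang3 (S : Set ℕ) : Language (Fin 3) := {w | val3 w ∈ S}

theorem step (S : Set ℕ) (q : ℕ) (hS : ∀ n : ℕ, 2 ^ q ≤ n → (n ∈ S ↔ T n ∈ S)) :
    ∀ p r : ℕ, r < 2 ^ p → ∃ c s : ℕ, s < 3 ^ c ∧
      ∀ x, 2 ^ q ≤ x → (2 ^ p * x + r ∈ S ↔ 3 ^ c * x + s ∈ S) := by
  intro p
  induction p with
  | zero =>
    intro r hr
    have hr0 : r = 0 := by simpa using hr
    subst hr0
    exact ⟨0, 0, by norm_num, fun x _ => by simp⟩
  | succ p ih =>
    intro r hr
    have h2p : 0 < 2 ^ p := by positivity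
    have hr' : r < 2 ^ p * 2 := by rwa [pow_succ] at hr
    obtain ⟨z, hz⟩ : ∃ z, z = r / 2 := ⟨_, rfl⟩
    rcases Nat.mod_two_eq_zero_or_one r with h | h
    · obtain ⟨c, s, hs, hx⟩ := ih z (by omega)
      refine ⟨c, s, hs, fun x hxq => ?_⟩
      have hbig : x ≤ 2 ^ p * x := Nat.le_mul_of_pos_left x h2p
      have e : 2 ^ (p + 1) * x + r = 2 * (2 ^ p * x + z) := by
        rw [pow_succ]
        have : 2 ^ p * 2 * x = 2 * (2 ^ p * x) := by ring
        omega
      rw [e, hS _ (by omega), T_even]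
      exact hx x hxq
    · obtain ⟨b, hb⟩ : ∃ b, b = (3 * z + 2) / 2 ^ p := ⟨_, rfl⟩
      obtain ⟨u, hu⟩ : ∃ u, u = (3 * z + 2) % 2 ^ p := ⟨_, rfl⟩
      have hzu : 3 * z + 2 = 2 ^ p * b + u := by rw [hb, hu]; exact (Nat.div_add_mod _ _).symm
      have hu2 : u < 2 ^ p := by rw [hu]; exact Nat.mod_lt _ h2p
      have hb3 : b < 3 := by
        rw [hb, Nat.div_lt_iff_lt_mul h2p]
        omega
      obtain ⟨c, s, hs, hx⟩ := ih u hu2
      refine ⟨c + 1, 3 ^ c * b + s, ?_, fun x hxq => ?_⟩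
      · rw [pow_succ]
        have : 3 ^ c * b ≤ 3 ^ c * 2 := Nat.mul_le_mul_left _ (by omega)
        omega
      · have hbig : x ≤ 2 ^ p * x := Nat.le_mul_of_pos_left x h2p
        have e : 2 ^ (p + 1) * x + r = 2 * (2 ^ p * x + z) + 1 := by
          rw [pow_succ]
          have : 2 ^ p * 2 * x = 2 * (2 ^ p * x) := by ring
          omega
        have e2 : 3 * (2 ^ p * x + z) + 1 + 1 = 2 ^ p * (3 * x + b) + u := by
          have : 2 ^ p * (3 * x + b) = 3 * (2 ^ p * x) + 2 ^ p * b := by ring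
          omega
        have e3 : 3 ^ c * (3 * x + b) + s = 3 ^ (c + 1) * x + (3 ^ c * b + s) := by
          rw [pow_succ]; ring
        rw [e, hS _ (by omega), T_odd, e2, hx (3 * x + b) (by omega), e3]

/-- ternary words of length `c` -/
def word3 : ℕ → ℕ → List (Fin 3)
  | 0, _ => []
  | c + 1, s => word3 c (s / 3) ++ [⟨s % 3, Nat.mod_lt _ (by norm_num)⟩]

theorem val3_append_singleton (w : List (Fin 3)) (b : Fin 3) :
    val3 (w ++ [b]) = 3 * val3 w + (b : ℕ) := by
  simp [val3, List.foldl_append]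

theorem val3_word : ∀ c s, s < 3 ^ c → ∀ w, val3 (w ++ word3 c s) = 3 ^ c * val3 w + s := by
  intro c
  induction c with
  | zero =>
    intro s hs w
    have hs0 : s = 0 := by simpa using hs
    subst hs0
    simp [word3]
  | succ c ih =>
    intro s hs w
    rw [word3, ← List.append_assoc, val3_append_singleton,
      ih (s / 3) (by rw [pow_succ] at hs; omega), pow_succ]
    have h2 : 3 ^ c * 3 * val3 w = 3 * (3 ^ c * val3 w) := by ring
    simp only
    omega

theorem val3_word3 (x : ℕ) : val3 (word3 x x) = x := by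
  have := val3_word x x (Nat.lt_pow_self (by norm_num)) []
  simpa [val3] using this

/-- the class of `x` -/
def cls (S : Set ℕ) (x : ℕ) : Set.range (lang3 S).leftQuotient :=
  ⟨(lang3 S).leftQuotient (word3 x x), word3 x x, rfl⟩

theorem mem_cls (S : Set ℕ) (x c s : ℕ) (hs : s < 3 ^ c) :
    word3 c s ∈ (cls S x : Language (Fin 3)) ↔ 3 ^ c * x + s ∈ S := by
  have h1 : val3 (word3 x x ++ word3 c s) = 3 ^ c * x + s := by
    rw [val3_word c s hs, val3_word3]
  have h2 : word3 c s ∈ (lang3 S).leftQuotient (word3 x x) ↔ val3 (word3 x x ++ word3 c s) ∈ S := by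
    rw [Language.mem_leftQuotient]
    rfl
  rw [h1] at h2
  exact h2

theorem cls_eq {S : Set ℕ} {x y : ℕ} (h : cls S x = cls S y) {c s : ℕ} (hs : s < 3 ^ c) :
    3 ^ c * x + s ∈ S ↔ 3 ^ c * y + s ∈ S := by
  rw [← mem_cls S x c s hs, ← mem_cls S y c s hs, h]

theorem pat_le3 (S : Set ℕ) (q : ℕ) (hS : ∀ n : ℕ, 2 ^ q ≤ n → (n ∈ S ↔ T n ∈ S))
    (h : (lang3 S).IsRegular) : ∃ K, ∀ p, pat S p ≤ K := by
  classical
  have hfin := h.finite_range_leftQuotient
  refine ⟨(Set.range (lang3 S).leftQuotient).ncard + 2 ^ q, ?_⟩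
  intro p
  choose cc ss hss hcc using fun (r : ℕ) (hr : r < 2 ^ p) => step S q hS p r hr
  let G : Language (Fin 3) → Set ℕ := fun Q => {r | ∃ hr : r < 2 ^ p, word3 (cc r hr) (ss r hr) ∈ Q}
  let H : ℕ → Set ℕ := fun x => {r | r < 2 ^ p ∧ 2 ^ p * x + r ∈ S}
  have hsub : {B : Set ℕ | ∃ x : ℕ, 1 ≤ x ∧ B = {r | r < 2 ^ p ∧ 2 ^ p * x + r ∈ S}} ⊆
      G '' (Set.range (lang3 S).leftQuotient) ∪ H '' (Set.Iio (2 ^ q)) := by
    rintro B ⟨x, _, rfl⟩
    rcases lt_or_ge x (2 ^ q) with hx | hx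
    · right
      exact ⟨x, hx, rfl⟩
    · left
      refine ⟨cls S x, (cls S x).2, ?_⟩
      ext r
      simp only [G, Set.mem_ofPred_eq]
      constructor
      · rintro ⟨hr, h1⟩
        rw [mem_cls S x _ _ (hss r hr)] at h1
        exact ⟨hr, (hcc r hr x hx).mpr h1⟩
      · rintro ⟨hr, h1⟩
        refine ⟨hr, ?_⟩
        rw [mem_cls S x _ _ (hss r hr)]
        exact (hcc r hr x hx).mp h1
  have hfin2 : (H '' (Set.Iio (2 ^ q))).Finite := (Set.finite_Iio _).image _
  have h1 := Set.ncard_le_ncard hsub ((hfin.image G).union hfin2)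
  have h2 := Set.ncard_union_le (G '' (Set.range (lang3 S).leftQuotient)) (H '' (Set.Iio (2 ^ q)))
  have h3 := Set.ncard_image_le (f := G) hfin
  have h4 := Set.ncard_image_le (f := H) (Set.finite_Iio (2 ^ q))
  have h5 : (Set.Iio (2 ^ q)).ncard = 2 ^ q := by
    rw [Set.ncard_eq_toFinset_card']
    simp
  change Set.ncard _ ≤ _
  omega

theorem finite_of_reg3 (S : Set ℕ) (q : ℕ) (hS : ∀ n : ℕ, 2 ^ q ≤ n → (n ∈ S ↔ T n ∈ S))
    (h : (lang3 S).IsRegular) (n1 : ℕ) (hn1 : ∀ n : ℕ, n1 ≤ n → n % 6 ≠ 0 → n ∉ S) :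
    S.Finite := by
  classical
  by_contra hinf
  have H := toInvT hS
  have : Finite (Set.range (lang3 S).leftQuotient) := h.finite_range_leftQuotient
  have h2q : 0 < 2 ^ q := by positivity
  obtain ⟨x0, hx0, hx0N⟩ := Set.Infinite.exists_gt hinf (n1 + 2 ^ q)
  obtain ⟨a, a', hne, heq⟩ := Finite.exists_ne_map_eq_of_infinite
    (fun a : ℕ => (cls S (2 ^ a * x0), cls S (2 ^ a * x0 - 1)))
  wlog haa : a < a' generalizing a a'
  · exact this a' a hne.symm heq.symm (by omega)
  have hc1 : cls S (2 ^ a * x0) = cls S (2 ^ a' * x0) := congrArg Prod.fst heq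
  have hc2 : cls S (2 ^ a * x0 - 1) = cls S (2 ^ a' * x0 - 1) := congrArg Prod.snd heq
  obtain ⟨x, hx⟩ : ∃ x, x = 2 ^ a * x0 := ⟨_, rfl⟩
  obtain ⟨x', hx'⟩ : ∃ x', x' = 2 ^ a' * x0 := ⟨_, rfl⟩
  rw [← hx, ← hx'] at hc1 hc2
  have hxx : x < x' := by
    rw [hx, hx']
    exact Nat.mul_lt_mul_of_pos_right (Nat.pow_lt_pow_right (by norm_num) haa) (by omega)
  have hx1 : x0 ≤ x := by rw [hx]; exact Nat.le_mul_of_pos_left x0 (by positivity)
  obtain ⟨v, D', hD', hD⟩ := Nat.exists_eq_two_pow_mul_odd (show x' - x ≠ 0 by omega)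
  obtain ⟨p, c, hc, hpc⟩ := close_powers (x + n1 + 2 ^ q + 2 ^ (v + 1))
  have h2v : 0 < 2 ^ (v + 1) := by positivity
  set C := x + n1 + 2 ^ q + 2 ^ (v + 1) with hC
  have hCx : x ≤ C := by omega
  -- the element
  have hmem : 2 ^ p * x ∈ S := by
    rw [hx, ← mul_assoc, ← pow_add]
    exact (H.dblpow (p + a) x0 (by omega)).mpr hx0
  have hmain : 3 ^ c * (x' - x) + 2 ^ p * x ∈ S ∧ C ≤ 2 ^ p ∧ C ≤ 3 ^ c := by
    rcases hpc with ⟨h1, h2⟩ | ⟨h1, h2⟩
    · obtain ⟨d, hd⟩ : ∃ d, 3 ^ c = 2 ^ p + d := ⟨3 ^ c - 2 ^ p, by omega⟩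
      have hdd : 3 ^ c - 2 ^ p = d := by omega
      rw [hdd] at h2
      have hd1 : 1 ≤ d := by omega
      have h3 : C ≤ C * d := Nat.le_mul_of_pos_right C hd1
      have h4 : d * x ≤ C * d := by
        rw [mul_comm C d]; exact Nat.mul_le_mul_left d hCx
      have h5 : 1 ≤ d * x := Nat.mul_pos hd1 (by omega)
      refine ⟨?_, by omega, by omega⟩
      have hs : 3 ^ c - d * x < 3 ^ c := by omega
      have key := cls_eq hc2 hs
      obtain ⟨y, hy⟩ : ∃ y, x = y + 1 := ⟨x - 1, by omega⟩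
      obtain ⟨y', hy'⟩ : ∃ y', x' = y' + 1 := ⟨x' - 1, by omega⟩
      have e1 : 3 ^ c * (x - 1) + (3 ^ c - d * x) = 2 ^ p * x := by
        have : 3 ^ c * x = 2 ^ p * x + d * x := by rw [hd]; ring
        have h6 : 3 ^ c * (x - 1) + 3 ^ c = 3 ^ c * x := by
          rw [hy, Nat.add_sub_cancel]; ring
        omega
      have e2 : 3 ^ c * (x' - 1) + (3 ^ c - d * x) = 3 ^ c * (x' - x) + 2 ^ p * x := by
        have : 3 ^ c * x = 2 ^ p * x + d * x := by rw [hd]; ring
        have h6 : 3 ^ c * (x' - 1) + 3 ^ c = 3 ^ c * x' := by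
          rw [hy', Nat.add_sub_cancel]; ring
        have h7 : 3 ^ c * (x' - x) + 3 ^ c * x = 3 ^ c * x' := by
          rw [← mul_add]; congr 1; omega
        omega
      rw [e1, e2] at key
      exact key.mp hmem
    · obtain ⟨d, hd⟩ : ∃ d, 2 ^ p = 3 ^ c + d := ⟨2 ^ p - 3 ^ c, by omega⟩
      have hdd : 2 ^ p - 3 ^ c = d := by omega
      rw [hdd] at h2
      have hd1 : 1 ≤ d := by omega
      have h3 : C ≤ C * d := Nat.le_mul_of_pos_right C hd1
      have h4 : d * x < C * d := by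
        rw [mul_comm C d]; exact Nat.mul_lt_mul_of_pos_left (by omega) hd1
      refine ⟨?_, by omega, by omega⟩
      have hs : d * x < 3 ^ c := by omega
      have key := cls_eq hc1 hs
      have e1 : 3 ^ c * x + d * x = 2 ^ p * x := by rw [hd]; ring
      have e2 : 3 ^ c * x' + d * x = 3 ^ c * (x' - x) + 2 ^ p * x := by
        have h7 : 3 ^ c * (x' - x) + 3 ^ c * x = 3 ^ c * x' := by
          rw [← mul_add]; congr 1; omega
        omega
      rw [e1, e2] at key
      exact key.mp hmem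
  obtain ⟨hm, hp, h3c⟩ := hmain
  have hvp : v + 1 ≤ p := by
    have : 2 ^ (v + 1) ≤ 2 ^ p := by omega
    exact (Nat.pow_le_pow_iff_right (by norm_num)).mp this
  obtain ⟨m, hmm⟩ : ∃ m, m = 3 ^ c * D' + 2 * (2 ^ (p - v - 1) * x) := ⟨_, rfl⟩
  have e3 : 3 ^ c * (x' - x) + 2 ^ p * x = 2 ^ v * m := by
    have : 2 ^ p = 2 ^ v * (2 * 2 ^ (p - v - 1)) := by
      rw [← pow_succ', ← pow_add]; congr 1; omega
    rw [hmm, hD, this]; ring
  have hDpos : 1 ≤ D' := hD'.pos
  have hm3 : 3 ^ c ≤ 3 ^ c * D' := Nat.le_mul_of_pos_right _ hDpos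
  rw [e3] at hm
  have hmS : m ∈ S := (H.dblpow v m (by omega)).mp hm
  have hodd : m % 2 = 1 := by
    have h8 : Odd (3 ^ c * D') := (Odd.pow (by decide)).mul hD'
    have h9 := Nat.odd_iff.mp h8
    omega
  exact hn1 m (by omega) (by omega) hmS

theorem val3_append (w y : List (Fin 3)) : val3 (w ++ y) = 3 ^ y.length * val3 w + val3 y ∧
    val3 y < 3 ^ y.length := by
  induction y using List.reverseRecOn with
  | nil => simp [val3]
  | append_singleton y b ih =>
    rw [← List.append_assoc, val3_append_singleton, val3_append_singleton, List.length_append,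
      List.length_singleton, ih.1, pow_succ]
    have hb : (b : ℕ) < 3 := b.2
    have h2 : 3 ^ y.length * 3 * val3 w = 3 * (3 ^ y.length * val3 w) := by ring
    have h3 := ih.2
    constructor <;> omega

theorem reg3_of_const (S : Set ℕ) (N : ℕ) (c : Prop) (hc : ∀ n, N ≤ n → (n ∈ S ↔ c)) :
    (lang3 S).IsRegular := by
  classical
  apply Language.IsRegular.of_finite_range_leftQuotient
  let g : Option (Fin N) → Language (Fin 3) := fun k =>
    match k with
    | some x => (lang3 S).leftQuotient (word3 x x)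
    | none => {w | c}
  apply (Set.finite_range g).subset
  rintro Q ⟨w, rfl⟩
  by_cases hw : val3 w < N
  · refine ⟨some ⟨val3 w, hw⟩, ?_⟩
    ext y
    simp only [g]
    rw [Language.mem_leftQuotient, Language.mem_leftQuotient]
    change val3 _ ∈ S ↔ val3 _ ∈ S
    rw [(val3_append w y).1, (val3_append _ y).1, val3_word3]
  · refine ⟨none, ?_⟩
    ext y
    simp only [g]
    rw [Language.mem_leftQuotient]
    change c ↔ val3 (w ++ y) ∈ S
    rw [(val3_append w y).1]
    have h1 : val3 w ≤ 3 ^ y.length * val3 w := Nat.le_mul_of_pos_left _ (by positivity)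
    exact (hc _ (by omega)).symm

/-- base three: regular exactly if finite or cofinite -/
theorem reg3_iff (S : Set ℕ) (q : ℕ) (hS : ∀ n : ℕ, 2 ^ q ≤ n → (n ∈ S ↔ T n ∈ S)) :
    (lang3 S).IsRegular ↔ S.Finite ∨ Sᶜ.Finite := by
  constructor
  · intro h
    obtain ⟨K, hK⟩ := pat_le3 S q hS h
    have hK' := hK (q + K)
    obtain ⟨n1, h1 | h1⟩ := const_of_pat S q hS (q + K) (by omega) (by omega)
    · exact Or.inl (finite_of_reg3 S q hS h n1 h1)
    · right
      refine finite_of_reg3 Sᶜ q (fun n hn => not_congr (hS n hn)) ?_ n1 ?_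
      · have e : lang3 Sᶜ = (lang3 S)ᶜ := rfl
        rw [e]
        exact h.compl
      · intro n hn hn6 hnS
        exact hnS (h1 n hn hn6)
  · rintro (h | h)
    · obtain ⟨N, hN⟩ := h.bddAbove
      refine reg3_of_const S (N + 1) False fun n hn => ⟨fun h1 => ?_, fun h1 => h1.elim⟩
      have := hN h1
      omega
    · obtain ⟨N, hN⟩ := h.bddAbove
      refine reg3_of_const S (N + 1) True fun n hn => ⟨fun _ => True.intro, fun _ => ?_⟩
      by_contra h2
      have := hN h2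
      omega

end Pool.Agent.Helper41.CZ3
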